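import Pool.Agent.Lib.MP_8daebb_an.TB.W
import Pool.Agent.Lib.MP_8daebb_an.GM.TEV

/-! The blow-up satisfies the package EV. -/

set_option linter.unusedSectionVars false

open MeasureTheory Metric Filter Topology Set
open scoped RealInnerProductSpace ENNReal NNReal

namespace Pool.Agent.Lib.MP_8daebb_an.TB

open SV (areaElt)
open GM

variable {H : Type*} [NormedAddCommGroup H] [InnerProductSpace ℝ H] [FiniteDimensional ℝ H]
  [MeasurableSpace H] [BorelSpace H] {m : ℕ}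

variable {U : Set H} {V : Measure (H × (H →L[ℝ] H))} {x₀ : H} {θ : ℝ}

theorem ae_density_ge_reg (hV : IsStationaryVarifold m U V) (hU : IsOpen U)
    (hl : ∀ᵐ w ∂V, LD1 m V w.1) :
    ∀ᵐ x ∂V.fst, ∃ θ, 1 ≤ θ ∧ HasDensity m V.fst x θ := by
  have h : ∀ᵐ x ∂V.fst, x ∈ U ∧ ∃ θ, 1 ≤ θ ∧ HasDensity m V.fst x θ := by
    refine (ae_map_iff measurable_fst.aemeasurable (measurableSet_density_ge hV hU)).2 ?_
    filter_upwards [hV.carried, hl] with w h1 h2
    obtain ⟨θ, hθ⟩ := exists_hasDensity hV hU h1.1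
    refine ⟨h1.1, θ, le_of_forall_sub_le fun δ hδ => ge_of_tendsto hθ ?_, hθ⟩
    filter_upwards [ev_closedBall_tmono hU h1.1, h2 δ hδ] with r hr h3
    have h4 := hr.1
    rw [ENNReal.ofReal_le_iff_le_toReal (hV.ball_lt_top hr.2).ne] at h3
    have hω := omega_pos m
    rw [le_div_iff₀ (by positivity), ← mul_assoc]
    exact h3
  exact h.mono fun x hx => hx.2

theorem one_le_density_reg (hV : IsStationaryVarifold m U V) (hU : IsOpen U)
    (hl : ∀ᵐ w ∂V, LD1 m V w.1) {p : H}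
    (hp : p ∈ U) (hs : p ∈ V.fst.support) {θ : ℝ} (hθ : HasDensity m V.fst p θ) : 1 ≤ θ := by
  refine ge_of_tendsto hθ ?_
  filter_upwards [ev_closedBall_tmono hU hp] with r hr
  have h1 := hr.1
  have hω := omega_pos m
  rw [one_le_div (by positivity)]
  exact hV.mass_ge_of_support (ae_density_ge_reg hV hU hl) hs hr.1 hr.2 hU

theorem ev_flat_reg (hV : IsStationaryVarifold m U V) (hU : IsOpen U)
    (hl : ∀ᵐ w ∂V, LD1 m V w.1) (hx : x₀ ∈ U)
    {ι : E m →ₗᵢ[ℝ] H} (ht : HasFlatTangent m V.fst x₀ θ ι) {ε : ℝ}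
    (hε : 0 < ε) :
    ∀ᶠ r in 𝓝[>] (0 : ℝ), ∀ᵐ z ∂blow m V x₀ r, ∃ v : E m, ‖z.1 - ι v‖ ≤ ε := by
  obtain ⟨δ, hδ, h1⟩ := small_tev.1 (hV.height hU (ae_density_ge_reg hV hU hl) hx ht
    (ε := min (ε / 2) 1) (by positivity) (min_le_right _ _))
  refine small_tev.2 ⟨δ / 2, by positivity, fun r hr hr' => ae_blow hr ?_⟩
  have h2 : ∀ᵐ w ∂V, w.1 ∈ V.fst.support :=
    ae_of_ae_map (p := fun x => x ∈ V.fst.support) measurable_fst.aemeasurable
      (Measure.support_mem_ae (μ := V.fst))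
  filter_upwards [h2] with w hw hw'
  have h3 := h1 (2 * r) (by positivity) (by linarith) w.1 hw
    (by rw [show 2 * (2 * r) = 4 * r by ring]; exact ball_subset_closedBall hw')
  refine ⟨pr ι (r⁻¹ • (w.1 - x₀)), ?_⟩
  rw [← nr_apply, map_smul, norm_smul, norm_inv, Real.norm_of_nonneg hr.le,
    inv_mul_le_iff₀ hr]
  have h5 := mul_le_mul_of_nonneg_right (min_le_left (ε / 2) 1) (show 0 ≤ 2 * r by positivity)
  linarith

theorem ld_blow_reg (hl : ∀ᵐ w ∂V, LD1 m V w.1) {r : ℝ} (hr : 0 < r) :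
    ∀ᵐ z ∂blow m V x₀ r, LD1 m (blow m V x₀ r) z.1 := by
  refine ae_blow hr ?_
  filter_upwards [hl] with w hw hw' δ hδ
  obtain ⟨η, hη, h1⟩ := small_tev.1 (hw δ hδ)
  have h0 : 0 < 4 * r - dist w.1 x₀ := sub_pos.2 (mem_ball.1 hw')
  refine small_tev.2 ⟨min (η / r) ((4 * r - dist w.1 x₀) / r), by positivity,
    fun s hs hs' => ?_⟩
  have h2 : r * s < η := by
    have := hs'.trans_le (min_le_left _ _)
    rwa [lt_div_iff₀' hr] at this
  have h3 : r * s < 4 * r - dist w.1 x₀ := by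
    have := hs'.trans_le (min_le_right _ _)
    rwa [lt_div_iff₀' hr] at this
  have h4 := h1 (r * s) (mul_pos hr hs) h2
  have h5 : x₀ + r • r⁻¹ • (w.1 - x₀) = w.1 := by
    rw [smul_inv_smul₀ hr.ne', add_sub_cancel]
  rw [blow_fst_ball hr, h5, inter_eq_left.2 (ball_subset_ball' (by linarith))]
  refine le_trans (le_of_eq ?_) (mul_le_mul_right h4 _)
  rw [← ENNReal.ofReal_mul (by positivity)]
  congr 1
  rw [mul_pow, inv_pow]
  field_simp

theorem exists_EV_reg (hV : IsStationaryVarifold m U V) (hU : IsOpen U) (hi : IsIntW m V)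
    (hl : ∀ᵐ w ∂V, LD1 m V w.1)
    (hx : x₀ ∈ U) (hs : x₀ ∈ V.fst.support) (hd : HasDensity m V.fst x₀ θ)
    {ι : E m →ₗᵢ[ℝ] H} (ht : HasFlatTangent m V.fst x₀ θ ι)
    (hbad : DensityCondition m V.fst x₀ θ) :
    ∃ M, ∀ ε > 0, ∃ r > 0, EV (blow m V x₀ r) ι M θ ε := by
  have hb : ∀ η > 0, ∃ δ > 0, ∀ s, 0 < s → s < δ →
      (V.fst ({x | ¬HasDensity m V.fst x θ} ∩ ball x₀ s)).toReal / s ^ m < η := fun η hη =>
    small_tev.1 (hbad.eventually (gt_mem_nhds hη))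
  obtain ⟨R, hR, hRU⟩ := Metric.isOpen_iff.1 hU x₀ hx
  refine ⟨6 ^ m * omega m * (|θ| + 1), fun ε hε => ?_⟩
  obtain ⟨δ, hδ, h1⟩ := hb ε hε
  have h2 : ∀ᶠ r in 𝓝[>] (0 : ℝ), 0 < r ∧ r < min R δ / 4 :=
    small_tev.2 ⟨min R δ / 4, by positivity, fun r h1 h2 => ⟨h1, h2⟩⟩
  obtain ⟨r, ⟨hr, hr'⟩, h3, h4, h5⟩ := (h2.and ((ev_ub hV hU hx hd).and
    ((ev_mass hd hε).and (ev_flat_reg hV hU hl hx ht hε)))).exists
  have h6 := min_le_left R δ
  have h7 := min_le_right R δ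
  have h8 : closedBall x₀ (4 * r) ⊆ U := (closedBall_subset_ball (by linarith)).trans hRU
  have hfin := blow_fin hV hr h8
  refine ⟨r, hr, hfin, blow_car hV hr, blow_stat hV hr h8, (hi.blow x₀ hr).area, ?_, h3, h5, h4,
    fun σ hσ hσ3 => ?_, fun η hη => ?_, ?_⟩
  · filter_upwards [ld_blow_reg (x₀ := x₀) hl hr] with z hz
    refine Eventually.frequently ?_
    filter_upwards [hz (1 / 100) (by norm_num)] with s hs
    have h9 := (ENNReal.ofReal_le_iff_le_toReal (measure_ne_top _ _)).1 hs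
    rw [Measure.real]
    linarith
  · have h9 : r * σ ≤ r * 3 := mul_le_mul_of_nonneg_left hσ3 hr.le
    exact (ev_bad_le hV hr hσ hσ3 h8).trans (mul_le_mul_of_nonneg_right
      (h1 _ (mul_pos hr hσ) (by linarith)).le (by positivity))
  · obtain ⟨δ', hδ', h9⟩ := hb η hη
    refine ⟨min 3 (δ' / 2 / r), by positivity, fun σ hσ hσ' => ?_⟩
    have h10 := hσ'.trans (min_le_right _ _)
    rw [le_div_iff₀' hr] at h10
    exact (ev_bad_le hV hr hσ (hσ'.trans (min_le_left _ _)) h8).trans (mul_le_mul_of_nonneg_right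
      (h9 _ (mul_pos hr hσ) (by linarith)).le (by positivity))
  · exact one_le_density_reg hV hU hl hx hs hd

theorem regular_of_evW
    (hev : ∀ M θ : ℝ, ∃ ε > 0, ∀ (W : Measure (H × (H →L[ℝ] H))) (κ : E m →ₗᵢ[ℝ] H),
      EV W κ M θ ε → GraphAt0 W.fst.support κ)
    (hV : IsStationaryVarifold m U V) (hU : IsOpen U) (hi : IsIntW m V)
    (hl : ∀ᵐ w ∂V, LD1 m V w.1)
    (hx : x₀ ∈ U) (hs : x₀ ∈ V.fst.support) (hd : HasDensity m V.fst x₀ θ)
    {ι : E m →ₗᵢ[ℝ] H} (ht : HasFlatTangent m V.fst x₀ θ ι)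
    (hbad : DensityCondition m V.fst x₀ θ) : SmoothGraphNear V.fst.support x₀ ι := by
  obtain ⟨M, hM⟩ := exists_EV_reg hV hU hi hl hx hs hd ht hbad
  obtain ⟨ε, hε, h⟩ := hev M θ
  obtain ⟨r, hr, hE⟩ := hM ε hε
  exact smoothGraphNear_of_blow hr (h _ _ hE)

end Pool.Agent.Lib.MP_8daebb_an.TB
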