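import Pool.Agent.Lib.MP_8daebb_an.TB.Part

/-! The area formula for the Hausdorff measure and injective maps. -/

set_option linter.unusedSectionVars false

open MeasureTheory Metric Filter Topology Set
open scoped RealInnerProductSpace ENNReal NNReal

namespace Pool.Agent.Lib.MP_8daebb_an.TB

open SV (areaElt)
open GM

variable {H : Type*} [NormedAddCommGroup H] [InnerProductSpace ℝ H] [FiniteDimensional ℝ H]
  [MeasurableSpace H] [BorelSpace H] {m : ℕ}

theorem le_of_factor_HArea {a b : ℝ≥0∞} {c : ℝ → ℝ} (hc : ContinuousAt c 0) (h0 : c 0 = 1)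
    (h : ∀ ε : ℝ, 0 < ε → ε < 1 → a ≤ ENNReal.ofReal (c ε) * b) : a ≤ b := by
  have t1 : Tendsto (fun ε => ENNReal.ofReal (c ε)) (𝓝[>] 0) (𝓝 1) := by
    have := (ENNReal.continuous_ofReal.tendsto _).comp
      (hc.tendsto.mono_left (nhdsWithin_le_nhds (s := Ioi 0)))
    rwa [h0, ENNReal.ofReal_one] at this
  have t2 := ENNReal.Tendsto.mul_const (b := b) t1 (Or.inl one_ne_zero)
  rw [one_mul] at t2
  refine ge_of_tendsto t2 ?_
  filter_upwards [Ioo_mem_nhdsGT (zero_lt_one' ℝ)] with ε hε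
  exact h ε hε.1 hε.2

theorem piece_HArea {f : E m → H} {f' : E m → E m →L[ℝ] H} {t : Set (E m)} (ht : MeasurableSet t)
    {A : E m →L[ℝ] H} {ε : ℝ} (h0 : 0 < ε) (h1 : ε < 1)
    (ha : ∀ x ∈ t, ∀ y ∈ t, ‖f x - f y - A (x - y)‖ ≤ ε * ‖A (x - y)‖)
    (hb : ∀ x ∈ t, areaElt (f' x) ≤ (1 + ε) * areaElt A ∧ areaElt A ≤ (1 + ε) * areaElt (f' x)) :
    μHE[m] (f '' t) ≤ ENNReal.ofReal ((1 + ε) ^ m * (1 + ε))
        * ∫⁻ x in t, ENNReal.ofReal (areaElt (f' x)) ∧
      ∫⁻ x in t, ENNReal.ofReal (areaElt (f' x))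
        ≤ ENNReal.ofReal ((1 + ε) * (1 - ε)⁻¹ ^ m) * μHE[m] (f '' t) := by
  have p1 : 0 ≤ 1 + ε := by linarith
  have p2 : 0 < 1 - ε := by linarith
  constructor
  · have a1 := haus_le (m := m) (f := f) (g := A) (t := t) p1 fun x hx y hy => by
      rw [dist_eq_norm, dist_eq_norm, ← map_sub]
      linarith [ha x hx y hy, norm_le_norm_add_norm_sub' (f x - f y) (A (x - y))]
    refine a1.trans ?_
    rw [haus_lin, ENNReal.ofReal_mul (pow_nonneg p1 _), mul_assoc]
    refine mul_le_mul_right ?_ _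
    rw [← setLIntegral_const, ← lintegral_const_mul' _ _ ENNReal.ofReal_ne_top]
    refine setLIntegral_mono' ht fun x hx => ?_
    rw [← ENNReal.ofReal_mul p1]
    exact ENNReal.ofReal_le_ofReal (hb x hx).2
  · have a1 := haus_le (m := m) (f := A) (g := f) (t := t) (inv_pos.2 p2).le fun x hx y hy => by
      rw [dist_eq_norm, dist_eq_norm, ← map_sub, ← div_eq_inv_mul, le_div_iff₀ p2]
      have := norm_le_norm_add_norm_sub' (A (x - y)) (f x - f y)
      rw [norm_sub_rev (A (x - y))] at this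
      linarith [ha x hx y hy]
    rw [ENNReal.ofReal_mul p1, mul_assoc]
    refine le_trans ?_ (mul_le_mul_right a1 _)
    rw [haus_lin, ← mul_assoc, ← ENNReal.ofReal_mul p1, ← setLIntegral_const]
    exact setLIntegral_mono' ht fun x hx => ENNReal.ofReal_le_ofReal (hb x hx).1

theorem haus_image {f : E m → H} {f' : E m → E m →L[ℝ] H} {s : Set (E m)} (hs : MeasurableSet s)
    (hm : Measurable f') (hf : ∀ x ∈ s, HasFDerivWithinAt f (f' x) s x)
    (hi : ∀ x ∈ s, Function.Injective (f' x)) (hinj : InjOn f s) :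
    μHE[m] (f '' s) = ∫⁻ x in s, ENNReal.ofReal (areaElt (f' x)) := by
  have hcont : ContinuousOn f s := fun x hx => (hf x hx).continuousWithinAt
  have key : ∀ ε : ℝ, 0 < ε → ε < 1 → μHE[m] (f '' s) ≤ ENNReal.ofReal ((1 + ε) ^ m * (1 + ε))
        * ∫⁻ x in s, ENNReal.ofReal (areaElt (f' x)) ∧
      ∫⁻ x in s, ENNReal.ofReal (areaElt (f' x))
        ≤ ENNReal.ofReal ((1 + ε) * (1 - ε)⁻¹ ^ m) * μHE[m] (f '' s) := by
    intro ε h0 h1
    obtain ⟨t, A, t1, t2, t3, t4, t5⟩ := exists_part hs hm hf hi h0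
    have ts : ∀ n, t n ⊆ s := fun n => t3 ▸ subset_iUnion t n
    have pc := fun n => piece_HArea (f' := f') (t1 n) h0 h1 (t4 n) fun x hx => (t5 n x hx).2
    have e1 : μHE[m] (f '' s) = ∑' n, μHE[m] (f '' t n) := by
      rw [← measure_iUnion, ← image_iUnion, t3]
      · intro i j hij
        refine Set.disjoint_left.2 ?_
        rintro _ ⟨x, hx, rfl⟩ ⟨y, hy, e⟩
        rw [hinj (ts j hy) (ts i hx) e] at hy
        exact Set.disjoint_left.1 (t2 hij) hx hy
      · exact fun n => (t1 n).image_of_continuousOn_injOn (hcont.mono (ts n)) (hinj.mono (ts n))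
    have e2 : ∫⁻ x in s, ENNReal.ofReal (areaElt (f' x))
        = ∑' n, ∫⁻ x in t n, ENNReal.ofReal (areaElt (f' x)) := by
      rw [← lintegral_iUnion t1 t2, t3]
    rw [e1, e2, ← ENNReal.tsum_mul_left, ← ENNReal.tsum_mul_left]
    exact ⟨ENNReal.tsum_le_tsum fun n => (pc n).1, ENNReal.tsum_le_tsum fun n => (pc n).2⟩
  refine le_antisymm ?_ ?_
  · exact le_of_factor_HArea (c := fun ε => (1 + ε) ^ m * (1 + ε)) (by fun_prop) (by simp)
      fun ε h0 h1 => (key ε h0 h1).1
  · exact le_of_factor_HArea (c := fun ε => (1 + ε) * (1 - ε)⁻¹ ^ m)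
      (by fun_prop (disch := norm_num)) (by simp) fun ε h0 h1 => (key ε h0 h1).2

theorem haus_lintegral {f : E m → H} {f' : E m → E m →L[ℝ] H} {s : Set (E m)}
    (hs : MeasurableSet s) (hc : Measurable f) (hm : Measurable f')
    (hf : ∀ x ∈ s, HasFDerivWithinAt f (f' x) s x)
    (hi : ∀ x ∈ s, Function.Injective (f' x)) (hinj : InjOn f s) {φ : H → ℝ≥0∞}
    (hφ : Measurable φ) :
    ∫⁻ y in f '' s, φ y ∂μHE[m] = ∫⁻ x in s, φ (f x) * ENNReal.ofReal (areaElt (f' x)) := by
  have hJ : Measurable fun x => ENNReal.ofReal (areaElt (f' x)) :=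
    (continuous_areaElt.measurable.comp hm).ennreal_ofReal
  have e : (μHE[m] : Measure H).restrict (f '' s)
      = ((volume.restrict s).withDensity fun x => ENNReal.ofReal (areaElt (f' x))).map f := by
    ext S hS
    rw [Measure.restrict_apply hS, Measure.map_apply hc hS, withDensity_apply _ (hc hS),
      Measure.restrict_restrict (hc hS), ← image_preimage_inter]
    exact haus_image ((hc hS).inter hs) hm
      (fun x hx => (hf x hx.2).mono inter_subset_right) (fun x hx => hi x hx.2)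
      (hinj.mono inter_subset_right)
  rw [e, lintegral_map hφ hc,
    lintegral_withDensity_eq_lintegral_mul _ hJ (g := fun x => φ (f x)) (hφ.comp hc)]
  exact lintegral_congr fun x => mul_comm _ _

end Pool.Agent.Lib.MP_8daebb_an.TB
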