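import Pool.Agent.Lib.MP_8daebb_an.TB.Part

/-! The critical set of a Lipschitz map has a null image. -/

set_option linter.unusedSectionVars false

open MeasureTheory Metric Filter Topology Set
open scoped RealInnerProductSpace ENNReal NNReal

namespace Pool.Agent.Lib.MP_8daebb_an.TB

open SV (areaElt)
open GM

variable {H : Type*} [NormedAddCommGroup H] [InnerProductSpace ℝ H] [FiniteDimensional ℝ H]
  [MeasurableSpace H] [BorelSpace H] {m : ℕ}

theorem loc_sard (A : E m →L[ℝ] H) {η : ℝ} (hη : 0 < η) : ∃ δ : ℝ≥0, δ ≠ 0 ∧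
    (¬Function.Injective A → ∀ (f : E m → H) (t : Set (E m)), ApproximatesLinearOn f A t δ →
      μHE[m] (f '' t) ≤ ENNReal.ofReal (3 ^ m * η) * volume t) := by
  by_cases hA : Function.Injective A
  · exact ⟨1, one_ne_zero, fun h => (h hA).elim⟩
  obtain ⟨e, he1, he⟩ : ∃ e : E m, ‖e‖ = 1 ∧ A e = 0 := by
    rw [injective_iff_map_eq_zero] at hA
    push Not at hA
    obtain ⟨a, ha, h0⟩ := hA
    exact ⟨‖a‖⁻¹ • a, norm_smul_inv_norm h0, by rw [map_smul, ha, smul_zero]⟩
  obtain ⟨B, hB⟩ : ∃ B : ℝ → E m →L[ℝ] E m, B = fun d =>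
      (‖A‖ + 1) • (1 - (innerSL ℝ e).smulRight e) + d • (innerSL ℝ e).smulRight e := ⟨_, rfl⟩
  have Bv : ∀ d v, B d v = (‖A‖ + 1) • (v - ⟪e, v⟫ • e) + (d * ⟪e, v⟫) • e := fun d v => by
    simp [hB, smul_smul]
  have cB : Continuous fun d => |(B d).det| := by
    refine (ContinuousLinearMap.continuous_det.comp ?_).abs
    rw [hB]
    fun_prop
  have B0 : |(B 0).det| < η := by
    have h0 : e ≠ 0 := fun h => by simp [h] at he1
    have : (B 0).det = 0 := by
      refine LinearMap.det_eq_zero_iff_ker_ne_bot.2 ((Submodule.ne_bot_iff _).2 ⟨e, ?_, h0⟩)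
      simp [Bv, he1]
    simpa [this] using hη
  obtain ⟨d, ⟨d1, d2⟩, d0⟩ := (((cB.continuousAt.eventually (gt_mem_nhds B0)).and
    (gt_mem_nhds (zero_lt_one' ℝ))).filter_mono (nhdsWithin_le_nhds (s := Ioi (0 : ℝ)))
    |>.and self_mem_nhdsWithin).exists
  replace d0 : 0 < d := d0
  refine ⟨⟨d, d0.le⟩, fun h => d0.ne' (congrArg NNReal.toReal h), fun _ f t ht => ?_⟩
  have key := haus_le (m := m) (f := f) (g := B d) (t := t) (K := 3) (by norm_num)
    fun x hx y hy => by
      have h1 : ‖f x - f y - A (x - y)‖ ≤ d * ‖x - y‖ := ht x hx y hy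
      rw [dist_eq_norm, dist_eq_norm, ← map_sub]
      generalize x - y = v at h1 ⊢
      have h2 : A v = A (v - ⟪e, v⟫ • e) := by rw [map_sub, map_smul, he, smul_zero, sub_zero]
      have h3 := A.le_opNorm (v - ⟪e, v⟫ • e)
      have h4 := norm_add_le (v - ⟪e, v⟫ • e) (⟪e, v⟫ • e)
      have h5 : ⟪e, B d v⟫ = d * ⟪e, v⟫ := by
        simp [Bv, inner_add_right, inner_sub_right, inner_smul_right, he1]
      have h6 := abs_real_inner_le_norm e (B d v)
      have h7 := norm_sub_le (B d v) ((d * ⟪e, v⟫) • e)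
      rw [sub_add_cancel, norm_smul, he1, mul_one, Real.norm_eq_abs] at h4
      rw [h5, he1, one_mul, abs_mul, abs_of_pos d0] at h6
      conv_lhs at h7 => rw [Bv, add_sub_cancel_right, norm_smul,
        Real.norm_of_nonneg (by positivity)]
      rw [norm_smul, he1, mul_one, Real.norm_eq_abs, abs_mul, abs_of_pos d0] at h7
      have h8 := norm_sub_norm_le (f x - f y) (A v)
      rw [← h2] at h3
      have h9 := mul_le_mul_of_nonneg_left h4 d0.le
      have h10 := mul_le_of_le_one_left (norm_nonneg (v - ⟪e, v⟫ • e)) d2.le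
      linarith
  rw [EuclideanSpace.euclideanHausdorffMeasure_eq_volume,
    Measure.addHaar_image_continuousLinearMap, ← mul_assoc,
    ← ENNReal.ofReal_mul (by positivity)] at key
  exact key.trans (mul_le_mul_left (ENNReal.ofReal_le_ofReal
    (mul_le_mul_of_nonneg_left d1.le (by positivity))) _)

theorem ball_sard {f : E m → H} {f' : E m → E m →L[ℝ] H} {s : Set (E m)}
    (hf : ∀ x ∈ s, HasFDerivWithinAt f (f' x) s x)
    (hi : ∀ x ∈ s, ¬Function.Injective (f' x)) {R : ℝ} (hs : s ⊆ closedBall 0 R) {η : ℝ}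
    (hη : 0 < η) :
    μHE[m] (f '' s) ≤ ENNReal.ofReal (3 ^ m * η) * volume (closedBall (0 : E m) R) := by
  rcases eq_empty_or_nonempty s with rfl | hne
  · simp
  choose δ δ0 hδ using fun A : E m →L[ℝ] H => loc_sard A hη
  obtain ⟨t, A, td, tm, tc, ht, hA⟩ :=
    exists_partition_approximatesLinearOn_of_hasFDerivWithinAt f s f' hf δ δ0
  calc μHE[m] (f '' s) ≤ μHE[m] (⋃ n, f '' (s ∩ t n)) := by
        rw [← image_iUnion, ← inter_iUnion]
        exact measure_mono (image_mono (subset_inter Subset.rfl tc))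
    _ ≤ ∑' n, μHE[m] (f '' (s ∩ t n)) := measure_iUnion_le _
    _ ≤ ∑' n, ENNReal.ofReal (3 ^ m * η) * volume (closedBall 0 R ∩ t n) := by
        refine ENNReal.tsum_le_tsum fun n => ?_
        obtain ⟨y, ys, hy⟩ := hA hne n
        exact (hδ _ (hy ▸ hi y ys) f _ (ht n)).trans
          (mul_le_mul_right (measure_mono (inter_subset_inter_left _ hs)) _)
    _ = ENNReal.ofReal (3 ^ m * η) * volume (⋃ n, closedBall 0 R ∩ t n) := by
        rw [ENNReal.tsum_mul_left, measure_iUnion
          (pairwise_disjoint_mono td fun n => inter_subset_right)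
          fun n => measurableSet_closedBall.inter (tm n)]
    _ ≤ _ := mul_le_mul_right (measure_mono (iUnion_subset fun n => inter_subset_left)) _

theorem haus_crit {f : E m → H} {f' : E m → E m →L[ℝ] H} {s : Set (E m)}
    (hf : ∀ x ∈ s, HasFDerivWithinAt f (f' x) s x)
    (hi : ∀ x ∈ s, ¬Function.Injective (f' x)) : μHE[m] (f '' s) = 0 := by
  rw [← iUnion_inter_closedBall_nat s 0, image_iUnion]
  refine measure_iUnion_null fun n => ?_
  have B : Tendsto (fun η : ℝ => ENNReal.ofReal (3 ^ m * η) * volume (closedBall (0 : E m) n))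
      (𝓝[>] 0) (𝓝 0) := by
    have c : Continuous fun η : ℝ => ENNReal.ofReal (3 ^ m * η) :=
      ENNReal.continuous_ofReal.comp (by fun_prop)
    have := ENNReal.Tendsto.mul_const (c.tendsto 0)
      (Or.inr (measure_closedBall_lt_top (μ := volume) (x := (0 : E m)) (r := n)).ne)
    simp only [mul_zero, ENNReal.ofReal_zero, zero_mul] at this
    exact this.mono_left nhdsWithin_le_nhds
  refine nonpos_iff_eq_zero.1 (ge_of_tendsto B ?_)
  filter_upwards [self_mem_nhdsWithin] with η hη
  exact ball_sard (fun x hx => (hf x hx.1).mono inter_subset_left) (fun x hx => hi x hx.1)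
    inter_subset_right hη

theorem haus_bad {f : E m → H} {K : ℝ≥0} (hK : LipschitzWith K f) :
    μHE[m] (f '' {a | ¬(DifferentiableAt ℝ f a ∧ Function.Injective (fderiv ℝ f a))}) = 0 := by
  have h1 : μHE[m] (f '' {a | ¬DifferentiableAt ℝ f a}) = 0 := by
    have h := haus_le (m := m) (f := f) (g := id) (t := {a | ¬DifferentiableAt ℝ f a})
      K.coe_nonneg fun x _ y _ => hK.dist_le_mul x y
    rw [image_id, EuclideanSpace.euclideanHausdorffMeasure_eq_volume,
      ae_iff.1 (hK.ae_differentiableAt (μ := volume)), mul_zero] at h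
    exact nonpos_iff_eq_zero.1 h
  have h2 := haus_crit (f := f) (f' := fderiv ℝ f)
    (s := {a | DifferentiableAt ℝ f a ∧ ¬Function.Injective (fderiv ℝ f a)})
    (fun x hx => hx.1.hasFDerivAt.hasFDerivWithinAt) fun x hx => hx.2
  refine measure_mono_null ?_ (measure_union_null h1 h2)
  rw [← image_union]
  refine image_mono fun a ha => ?_
  by_cases hd : DifferentiableAt ℝ f a
  · exact Or.inr ⟨hd, fun hj => ha ⟨hd, hj⟩⟩
  · exact Or.inl hd

end Pool.Agent.Lib.MP_8daebb_an.TB
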