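import Pool.Agent.Lib.MP_8daebb_an.GM.TAlg

/-! Consequences of the existence of a flat tangent. -/

set_option linter.unusedSectionVars false

open MeasureTheory Metric Filter Topology Set
open scoped RealInnerProductSpace ENNReal NNReal

namespace Pool.Agent.Lib.MP_8daebb_an.TB

open SV (areaElt)
open GM

variable {H : Type*} [NormedAddCommGroup H] [InnerProductSpace ℝ H] [FiniteDimensional ℝ H]
  [MeasurableSpace H] [BorelSpace H] {m : ℕ}

theorem exists_bump_Tan (z : H) {a b : ℝ} (hab : a < b) :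
    ∃ φ : H → ℝ, Continuous φ ∧ HasCompactSupport φ ∧ (∀ y, 0 ≤ φ y) ∧ (∀ y, φ y ≤ 1) ∧
      (∀ y, ‖y - z‖ ≤ a → φ y = 1) ∧ ∀ y, b ≤ ‖y - z‖ → φ y = 0 := by
  have h0 : 0 < b - a := sub_pos.2 hab
  have hz : ∀ y : H, b ≤ ‖y - z‖ → max 0 (min 1 ((b - ‖y - z‖) / (b - a))) = 0 := fun y hy =>
    max_eq_left ((min_le_right _ _).trans (div_nonpos_of_nonpos_of_nonneg (by linarith) h0.le))
  refine ⟨fun y => max 0 (min 1 ((b - ‖y - z‖) / (b - a))), by fun_prop, ?_,
    fun y => le_max_left _ _, fun y => max_le zero_le_one (min_le_left _ _), fun y hy => ?_, hz⟩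
  · refine HasCompactSupport.intro (isCompact_closedBall z b) fun y hy => hz y ?_
    rw [mem_closedBall, dist_eq_norm, not_le] at hy
    exact hy.le
  · have h1 : 1 ≤ (b - ‖y - z‖) / (b - a) := by
      rw [le_div_iff₀ h0]
      linarith
    show max 0 (min 1 ((b - ‖y - z‖) / (b - a))) = 1
    rw [min_eq_left h1, max_eq_right zero_le_one]

theorem norm_blow_Tan (x y z : H) {r : ℝ} (hr : 0 < r) :
    ‖r⁻¹ • (y - x) - z‖ = ‖y - (x + r • z)‖ / r := by
  have e : r⁻¹ • (y - x) - z = r⁻¹ • (y - (x + r • z)) := by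
    rw [← sub_sub, smul_sub r⁻¹ (y - x), inv_smul_smul₀ hr.ne']
  rw [e, norm_smul, norm_inv, Real.norm_of_nonneg hr.le, div_eq_inv_mul]

theorem vol_piece_Tan {t : Set (E m)} {a : E m}
    (hden : Tendsto (fun s : ℝ => volume (closedBall a s \ t) / volume (closedBall a s)) (𝓝[>] 0)
      (𝓝 0)) (v : E m) {k : ℝ} (hk : 0 < k) :
    ∀ᶠ r in 𝓝[>] (0 : ℝ), ENNReal.ofReal (omega m * k ^ m / 2 * r ^ m) ≤
      volume (t ∩ ball (a + r • v) (r * k)) := by
  have hω := omega_pos m
  set C := ‖v‖ + k with hC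
  have hC0 : 0 < C := by positivity
  have hCs : Tendsto (fun s : ℝ => C * s) (𝓝[>] 0) (𝓝[>] 0) := by
    refine tendsto_nhdsWithin_iff.2 ⟨?_, ?_⟩
    · have : Tendsto (fun s : ℝ => C * s) (𝓝 0) (𝓝 (C * 0)) :=
        (continuous_const.mul continuous_id).tendsto 0
      rw [mul_zero] at this
      exact this.mono_left nhdsWithin_le_nhds
    · filter_upwards [self_mem_nhdsWithin] with s hs
      exact mul_pos hC0 hs
  have e3 := (hden.comp hCs).eventually (gt_mem_nhds
    (show (0 : ℝ≥0∞) < ENNReal.ofReal (k ^ m / 2 / C ^ m) from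
      ENNReal.ofReal_pos.2 (by positivity)))
  filter_upwards [e3, self_mem_nhdsWithin] with s h3 hs
  have hs : 0 < s := hs
  have hv1 : volume (closedBall a (C * s) \ t) ≤ ENNReal.ofReal (omega m * k ^ m / 2 * s ^ m) := by
    have h5 : volume (closedBall a (C * s) \ t) / volume (closedBall a (C * s))
        < ENNReal.ofReal (k ^ m / 2 / C ^ m) := h3
    have h6 := ENNReal.div_le_iff_le_mul (a := volume (closedBall a (C * s) \ t))
      (b := volume (closedBall a (C * s))) (c := ENNReal.ofReal (k ^ m / 2 / C ^ m))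
      (Or.inr ENNReal.ofReal_ne_top) (Or.inl measure_closedBall_lt_top.ne)
    refine (h6.1 h5.le).trans_eq ?_
    rw [vol_closedBall m a (by positivity), ← ENNReal.ofReal_mul (by positivity)]
    congr 1
    rw [mul_pow]
    field_simp
  have e : omega m * k ^ m / 2 * s ^ m = omega m * (s * k) ^ m - omega m * k ^ m / 2 * s ^ m := by
    rw [mul_pow]
    ring
  rw [e, ENNReal.ofReal_sub _ (by positivity), tsub_le_iff_right,
    ← vol_ball m (a + s • v) (by positivity)]
  calc volume (ball (a + s • v) (s * k))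
      ≤ volume (t ∩ ball (a + s • v) (s * k) ∪ (closedBall a (C * s) \ t)) := by
        refine measure_mono fun x hx => ?_
        by_cases hxt : x ∈ t
        · exact Or.inl ⟨hxt, hx⟩
        · refine Or.inr ⟨?_, hxt⟩
          rw [mem_ball, dist_eq_norm] at hx
          rw [mem_closedBall, dist_eq_norm]
          have h7 : x - a = (x - (a + s • v)) + s • v := by abel
          have h8 := norm_add_le (x - (a + s • v)) (s • v)
          rw [← h7, norm_smul, Real.norm_of_nonneg hs.le] at h8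
          rw [hC]
          linarith
    _ ≤ _ := measure_union_le _ _
    _ ≤ _ := by gcongr

theorem chart_piece_Tan {g : E m → H} {a : E m} (hd : DifferentiableAt ℝ g a) (v : E m) {ρ : ℝ}
    (hρ : 0 < ρ) : ∃ k > 0, ∀ᶠ r in 𝓝[>] (0 : ℝ),
      ball (a + r • v) (r * k) ⊆ g ⁻¹' ball (g a + r • fderiv ℝ g a v) (r * ρ) := by
  set A := fderiv ℝ g a with hA
  set k := ρ / (2 * (‖A‖ + 1)) with hk
  have hk0 : 0 < k := by positivity
  have hk1 : ‖A‖ * k + k = ρ / 2 := by
    rw [hk]
    field_simp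
  set C := ‖v‖ + k with hC
  have hC0 : 0 < C := by positivity
  have e1 : ∀ᶠ x in 𝓝 a, ‖g x - g a - A (x - a)‖ ≤ ρ / 2 / C * ‖x - a‖ :=
    (hd.hasFDerivAt.isLittleO).def (by positivity)
  obtain ⟨ε, hε, hball⟩ := Metric.eventually_nhds_iff_ball.1 e1
  refine ⟨k, hk0, ?_⟩
  filter_upwards [Ioo_mem_nhdsGT (show (0 : ℝ) < ε / C by positivity)] with r hr x hx
  have hr0 : 0 < r := hr.1
  have hr1 : r * C < ε := (lt_div_iff₀ hC0).1 hr.2
  rw [mem_ball, dist_eq_norm] at hx
  have h7 : x - a = (x - (a + r • v)) + r • v := by abel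
  have h8 : ‖x - a‖ ≤ r * C := by
    have h9 := norm_add_le (x - (a + r • v)) (r • v)
    rw [← h7, norm_smul, Real.norm_of_nonneg hr0.le] at h9
    rw [hC]
    linarith
  have h1 := hball x (by rw [mem_ball, dist_eq_norm]; linarith)
  have h2 : ρ / 2 / C * ‖x - a‖ ≤ r * (ρ / 2) := by
    calc ρ / 2 / C * ‖x - a‖ ≤ ρ / 2 / C * (r * C) := mul_le_mul_of_nonneg_left h8 (by positivity)
      _ = r * (ρ / 2) := by field_simp
  have h3 : ‖A (x - (a + r • v))‖ ≤ ‖A‖ * (r * k) :=
    (A.le_opNorm _).trans (mul_le_mul_of_nonneg_left hx.le (norm_nonneg _))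
  have h4 : g x - (g a + r • A v) = (g x - g a - A (x - a)) + A (x - (a + r • v)) := by
    rw [← sub_sub x a, map_sub A (x - a), map_smul]
    abel
  rw [mem_preimage, mem_ball, dist_eq_norm, h4]
  have h5 := norm_add_le (g x - g a - A (x - a)) (A (x - (a + r • v)))
  have h6 : ‖A‖ * (r * k) + r * k = r * (ρ / 2) := by
    rw [← hk1]
    ring
  have h10 : 0 < r * k := by positivity
  linarith

/-- the tangent plane of the measure contains the tangent plane of a chart -/
theorem range_eq_of_tangent {μ : Measure H} {g : E m → H} {t : Set (E m)} {a : E m} {c : ℝ≥0∞}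
    (hc : c ≠ 0) (hlow : ∀ S : Set H, IsOpen S → c * volume (t ∩ g ⁻¹' S) ≤ μ S)
    (hd : DifferentiableAt ℝ g a) (hi : Function.Injective (fderiv ℝ g a))
    (hden : Tendsto (fun s : ℝ => volume (closedBall a s \ t) / volume (closedBall a s)) (𝓝[>] 0)
      (𝓝 0)) (hfin : ∃ r > 0, μ (ball (g a) r) < ⊤) {θ : ℝ} {ι : E m →ₗᵢ[ℝ] H}
    (ht : HasFlatTangent m μ (g a) θ ι) : range (fderiv ℝ g a) = range ι := by
  have key : ∀ v, fderiv ℝ g a v ∈ range ι := by
    intro v
    by_contra hv
    set z := fderiv ℝ g a v with hz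
    obtain ⟨ε, hε, hb⟩ := Metric.isOpen_iff.1 ι.isometry.isClosedEmbedding.isClosed_range.isOpen_compl
      z hv
    obtain ⟨φ, hφ, hcs, h0, h1, hone, hzero⟩ := exists_bump_Tan z (half_lt_self hε)
    have hι : ∀ p, φ (ι p) = 0 := fun p => hzero _ (by
      by_contra hlt
      exact hb (by rw [mem_ball, dist_eq_norm]; exact not_le.1 hlt) (mem_range_self p))
    have hlim := ht φ hφ hcs
    simp only [hι, integral_zero, mul_zero] at hlim
    obtain ⟨c0, hc0, hc1, hc2⟩ := ENNReal.lt_iff_exists_real_btwn.1 (pos_iff_ne_zero.2 hc)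
    have hc3 : 0 < c0 := ENNReal.ofReal_pos.1 hc1
    obtain ⟨k, hk, e1⟩ := chart_piece_Tan hd v (half_pos hε)
    have e2 := vol_piece_Tan hden v hk
    have hω := omega_pos m
    have e3 := hlim.eventually (gt_mem_nhds (show (0 : ℝ) < c0 * (omega m * k ^ m / 2) by positivity))
    obtain ⟨r0, hr0, hf⟩ := hfin
    have e4 := Ioo_mem_nhdsGT (show (0 : ℝ) < r0 / (‖z‖ + ε) by positivity)
    obtain ⟨r, ⟨⟨h2, h3⟩, h4⟩, h5⟩ := (((e1.and e2).and e3).and e4).exists
    have hr : 0 < r := h5.1
    have h6 : r * (‖z‖ + ε) < r0 := (lt_div_iff₀ (by positivity)).1 h5.2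
    have hcont : Continuous fun y : H => φ (r⁻¹ • (y - g a)) := hφ.comp (by fun_prop)
    have hint : Integrable (fun y : H => φ (r⁻¹ • (y - g a))) μ := by
      refine IntegrableOn.integrable_of_forall_notMem_eq_zero (s := ball (g a) r0)
        (Measure.integrableOn_of_bounded (M := 1) hf.ne hcont.aestronglyMeasurable
          (ae_of_all _ fun y => ?_)) fun y hy => hzero _ ?_
      · rw [Real.norm_of_nonneg (h0 _)]
        exact h1 _
      · rw [mem_ball, dist_eq_norm, not_lt] at hy
        rw [norm_blow_Tan _ _ _ hr, le_div_iff₀ hr]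
        have h7 : y - g a = (y - (g a + r • z)) + r • z := by abel
        have h8 := norm_add_le (y - (g a + r • z)) (r • z)
        rw [← h7, norm_smul, Real.norm_of_nonneg hr.le] at h8
        linarith
    have h9 : μ (ball (g a + r • z) (r * (ε / 2))) ≤
        ENNReal.ofReal (∫ y, φ (r⁻¹ • (y - g a)) ∂μ) := by
      rw [ofReal_integral_eq_lintegral_ofReal hint (ae_of_all _ fun y => h0 _),
        ← lintegral_indicator_one measurableSet_ball]
      refine lintegral_mono fun y => ?_
      by_cases hy : y ∈ ball (g a + r • z) (r * (ε / 2))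
      · rw [indicator_of_mem hy, hone, ENNReal.ofReal_one]
        · exact le_rfl
        · rw [mem_ball, dist_eq_norm] at hy
          rw [norm_blow_Tan _ _ _ hr, div_le_iff₀ hr]
          linarith
      · rw [indicator_of_notMem hy]
        exact zero_le
    have h10 : ENNReal.ofReal (c0 * (omega m * k ^ m / 2 * r ^ m)) ≤
        μ (ball (g a + r • z) (r * (ε / 2))) := by
      rw [ENNReal.ofReal_mul hc0]
      exact (mul_le_mul' hc2.le (h3.trans (measure_mono (inter_subset_inter_right _ h2)))).trans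
        (hlow _ isOpen_ball)
    have h11 := (ENNReal.ofReal_le_ofReal_iff (integral_nonneg fun y => h0 _)).1 (h10.trans h9)
    rw [div_lt_iff₀ (by positivity)] at h4
    linarith
  have hle : LinearMap.range (fderiv ℝ g a : E m →ₗ[ℝ] H) ≤ LinearMap.range ι.toLinearMap := by
    rintro _ ⟨v, rfl⟩
    exact key v
  have hfr : Module.finrank ℝ (LinearMap.range (fderiv ℝ g a : E m →ₗ[ℝ] H)) =
      Module.finrank ℝ (LinearMap.range ι.toLinearMap) := by
    rw [LinearMap.finrank_range_of_inj hi, LinearMap.finrank_range_of_inj ι.injective]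
  exact congrArg (fun K : Submodule ℝ H => (K : Set H)) (Submodule.eq_of_le_of_finrank_eq hle hfr)

/-- a flat tangent of multiplicity at least one gives lower density at least one -/
theorem ld_of_tangent {μ : Measure H} {x : H} {θ : ℝ} (h1 : 1 ≤ θ) {ι : E m →ₗᵢ[ℝ] H}
    (ht : HasFlatTangent m μ x θ ι) {δ : ℝ} (hδ : 0 < δ) :
    ∀ᶠ s in 𝓝[>] (0 : ℝ), ENNReal.ofReal ((1 - δ) * omega m * s ^ m) ≤ μ (ball x s) := by
  have hω := omega_pos m
  have e0 : ∀ᶠ b in 𝓝 (1 : ℝ), 1 - δ < b ^ m :=
    (continuous_pow m).continuousAt.eventually (lt_mem_nhds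
      (show 1 - δ < (1 : ℝ) ^ m by rw [one_pow]; linarith))
  obtain ⟨b, hb, hb0, hb1⟩ := ((e0.filter_mono nhdsWithin_le_nhds).and
    (Ioo_mem_nhdsLT (show (0 : ℝ) < 1 from one_pos))).exists
  obtain ⟨φ, hφ, hcs, h0, hle, hone, hzero⟩ := exists_bump_Tan (0 : H) hb1
  have hint : Integrable (fun p : E m => φ (ι p)) := by
    refine (hφ.comp ι.continuous).integrable_of_hasCompactSupport
      (HasCompactSupport.intro (isCompact_closedBall 0 1) fun p hp => hzero _ ?_)
    rw [mem_closedBall, dist_zero_right, not_le] at hp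
    rw [sub_zero, ι.norm_map]
    exact hp.le
  have hI : omega m * b ^ m ≤ ∫ p : E m, φ (ι p) := by
    refine (ENNReal.ofReal_le_ofReal_iff (integral_nonneg fun p => h0 _)).1 ?_
    rw [ofReal_integral_eq_lintegral_ofReal hint (ae_of_all _ fun p => h0 _), ← vol_ball m 0 hb0,
      ← lintegral_indicator_one measurableSet_ball]
    refine lintegral_mono fun p => ?_
    by_cases hp : p ∈ ball (0 : E m) b
    · rw [indicator_of_mem hp, hone, ENNReal.ofReal_one]
      · exact le_rfl
      · rw [mem_ball, dist_zero_right] at hp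
        rw [sub_zero, ι.norm_map]
        exact hp.le
    · rw [indicator_of_notMem hp]
      exact zero_le
  have hlt : (1 - δ) * omega m < θ * ∫ p : E m, φ (ι p) := by
    have h2 : 0 ≤ ∫ p : E m, φ (ι p) := integral_nonneg fun p => h0 _
    nlinarith [mul_lt_mul_of_pos_right hb hω, mul_nonneg (sub_nonneg.2 h1) h2]
  filter_upwards [(ht φ hφ hcs).eventually (lt_mem_nhds hlt), self_mem_nhdsWithin] with s h2 hs
  have hs : 0 < s := hs
  rw [lt_div_iff₀ (by positivity)] at h2
  refine (ENNReal.ofReal_le_ofReal (h2.le.trans (le_abs_self _))).trans ?_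
  rw [← Real.norm_eq_abs, ofReal_norm, ← lintegral_indicator_one measurableSet_ball]
  refine (enorm_integral_le_lintegral_enorm _).trans (lintegral_mono fun y => ?_)
  by_cases hy : y ∈ ball x s
  · rw [indicator_of_mem hy, Real.enorm_eq_ofReal (h0 _)]
    exact ENNReal.ofReal_le_one.2 (hle _)
  · rw [indicator_of_notMem hy, hzero, enorm_zero]
    rw [mem_ball, dist_eq_norm, not_lt] at hy
    rw [norm_blow_Tan _ _ _ hs, smul_zero, add_zero, le_div_iff₀ hs, one_mul]
    exact hy

end Pool.Agent.Lib.MP_8daebb_an.TB
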