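import Pool.Agent.Lib.MP_8daebb_an.TB.Part
import Pool.Agent.Lib.MP_8daebb_an.GM.TArea

/-! Integral varifolds in integrated form, with charts that are differentiable on their pieces. -/

set_option linter.unusedSectionVars false

open MeasureTheory Metric Filter Topology Set
open scoped RealInnerProductSpace ENNReal NNReal

namespace Pool.Agent.Lib.MP_8daebb_an.TB

open SV (areaElt)
open GM

variable {H : Type*} [NormedAddCommGroup H] [InnerProductSpace ℝ H] [FiniteDimensional ℝ H]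
  [MeasurableSpace H] [BorelSpace H] {m : ℕ}

/-- integral varifold, in integrated form -/
def IsIntW (m : ℕ) (V : Measure (H × (H →L[ℝ] H))) : Prop :=
  ∃ (f : ℕ → E m → H) (A : ℕ → Set (E m)) (P : ℕ → E m → H →L[ℝ] H),
    (∀ k, Continuous (f k)) ∧ (∀ k, MeasurableSet (A k)) ∧ (∀ k, Measurable (P k)) ∧
    (∀ k, ∀ a ∈ A k, DifferentiableAt ℝ (f k) a ∧ IsPlane m (P k a) ∧
      range (P k a) = range (fderiv ℝ (f k) a)) ∧
    ∀ φ : H × (H →L[ℝ] H) → ℝ≥0∞, Measurable φ →
      ∫⁻ w, φ w ∂V = ∑' k, ∫⁻ a in A k, φ (f k a, P k a) *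
        ENNReal.ofReal (areaElt (fderiv ℝ (f k) a))

variable {V : Measure (H × (H →L[ℝ] H))}

theorem IsIntW.restrict (h : IsIntW m V) {S : Set (H × (H →L[ℝ] H))} (hS : MeasurableSet S) :
    IsIntW m (V.restrict S) := by
  obtain ⟨f, A, P, hf, hA, hP, hr, hV⟩ := h
  have hm : ∀ k, Measurable fun x => (f k x, P k x) := fun k =>
    (hf k).measurable.prodMk (hP k)
  refine ⟨f, fun k => (fun x => (f k x, P k x)) ⁻¹' S ∩ A k, P, hf,
    fun k => (hm k hS).inter (hA k), hP, fun k a ha => hr k a ha.2, fun φ hφ => ?_⟩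
  rw [← lintegral_indicator hS, hV _ (hφ.indicator hS)]
  refine tsum_congr fun k => ?_
  rw [← Measure.restrict_restrict (hm k hS), ← lintegral_indicator (hm k hS)]
  refine lintegral_congr fun a => ?_
  by_cases ha : (f k a, P k a) ∈ S
  · rw [indicator_of_mem ha, indicator_of_mem (by exact ha)]
  · rw [indicator_of_notMem ha, indicator_of_notMem (by exact ha), zero_mul]

theorem IsIntW.blow (h : IsIntW m V) (x₀ : H) {r : ℝ} (hr : 0 < r) :
    IsIntW m (blow m V x₀ r) := by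
  have hS : MeasurableSet (Prod.fst ⁻¹' ball x₀ (4 * r) : Set (H × (H →L[ℝ] H))) :=
    measurable_fst measurableSet_ball
  obtain ⟨f, A, P, hf, hA, hP, hR, hV⟩ := h.restrict hS
  have hD : ∀ k, ∀ a ∈ A k, HasFDerivAt (fun z => r⁻¹ • (f k z - x₀))
      (r⁻¹ • fderiv ℝ (f k) a) a :=
    fun k a ha => ((hR k a ha).1.hasFDerivAt.sub_const x₀).const_smul r⁻¹
  have hd : ∀ k, ∀ a ∈ A k, fderiv ℝ (fun z => r⁻¹ • (f k z - x₀)) a = r⁻¹ • fderiv ℝ (f k) a :=
    fun k a ha => (hD k a ha).fderiv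
  have hm : Measurable fun w : H × (H →L[ℝ] H) => (r⁻¹ • (w.1 - x₀), w.2) :=
    ((measurable_fst.sub_const x₀).const_smul r⁻¹).prodMk measurable_snd
  refine ⟨fun k z => r⁻¹ • (f k z - x₀), A, P,
    fun k => ((hf k).sub continuous_const).const_smul r⁻¹, hA, hP,
    fun k a ha => ⟨(hD k a ha).differentiableAt, (hR k a ha).2.1, ?_⟩, fun φ hφ => ?_⟩
  · rw [(hR k a ha).2.2, hd k a ha]
    ext y
    constructor
    · rintro ⟨x, rfl⟩
      refine ⟨r • x, ?_⟩
      rw [smul_apply, map_smul, smul_smul, inv_mul_cancel₀ hr.ne', one_smul]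
    · rintro ⟨x, rfl⟩
      exact ⟨r⁻¹ • x, by rw [smul_apply, map_smul]⟩
  · have hφ' : Measurable fun w : H × (H →L[ℝ] H) => φ (r⁻¹ • (w.1 - x₀), w.2) := hφ.comp hm
    rw [GM.blow, lintegral_smul_measure, lintegral_map hφ hm, hV _ hφ', smul_eq_mul,
      ← ENNReal.tsum_mul_left]
    refine tsum_congr fun k => ?_
    rw [← lintegral_const_mul' _ _ ENNReal.ofReal_ne_top]
    refine setLIntegral_congr_fun (hA k) fun a ha => ?_
    show _ = φ (r⁻¹ • (f k a - x₀), P k a) *
      ENNReal.ofReal (areaElt (fderiv ℝ (fun z => r⁻¹ • (f k z - x₀)) a))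
    rw [hd k a ha, areaElt_smul (inv_pos.2 hr).le, ENNReal.ofReal_mul (by positivity),
      mul_left_comm]

theorem inj_of_det_W {L : E m →L[ℝ] E m} (hd : L.det ≠ 0) : Function.Injective L := by
  have h := (L.toContinuousLinearEquivOfDetNeZero hd).injective
  intro x y hxy
  refine h ?_
  have e : ∀ z, L.toContinuousLinearEquivOfDetNeZero hd z = L z := fun z =>
    ContinuousLinearMap.toContinuousLinearEquivOfDetNeZero_apply L hd z
  rw [e, e, hxy]

/-- the area formula in the plane, with multiplicity, for a map differentiable on the set -/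
theorem area_plane_W {g : E m → E m} {g' : E m → E m →L[ℝ] E m} {A : Set (E m)}
    (hA : MeasurableSet A) (hm : Measurable g') (hg : ∀ a ∈ A, HasFDerivAt g (g' a) a) :
    ∃ S : ℕ → Set (E m), (∀ j, MeasurableSet (S j)) ∧ ∀ ψ : E m → ℝ≥0∞, Measurable ψ →
      ∫⁻ a in A, ψ (g a) * ENNReal.ofReal |(g' a).det| = ∑' j, ∫⁻ y in S j, ψ y := by
  have hdm : Measurable fun a => (g' a).det :=
    ContinuousLinearMap.continuous_det.measurable.comp hm
  have hA0 : MeasurableSet (A ∩ (fun a => (g' a).det) ⁻¹' {0}ᶜ) :=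
    hA.inter (hdm (measurableSet_singleton 0).compl)
  obtain ⟨B, L, hBm, hBd, hBU, hB1, hB2⟩ := exists_part (H := E m) (f := g) (f' := g') hA0 hm
    (fun x hx => (hg x hx.1).hasFDerivWithinAt) (fun x hx => inj_of_det_W hx.2)
    (show (0 : ℝ) < 1 / 2 by norm_num)
  have hBA : ∀ j, B j ⊆ A := fun j a ha => by
    have h1 : a ∈ ⋃ j, B j := mem_iUnion.2 ⟨j, ha⟩
    rw [hBU] at h1
    exact h1.1
  have hBi : ∀ j, InjOn g (B j) := by
    intro j x hx y hy hxy
    have h1 := hB1 j x hx y hy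
    rw [hxy, sub_self, zero_sub, norm_neg] at h1
    have h2 : L j (x - y) = 0 := by
      have := norm_nonneg (L j (x - y))
      exact norm_eq_zero.1 (by linarith)
    have h3 : x - y = 0 := (hB2 j x hx).1 (by rw [h2, map_zero])
    exact sub_eq_zero.1 h3
  have hder : ∀ j, ∀ a ∈ B j, HasFDerivWithinAt g (g' a) (B j) a := fun j a ha =>
    (hg a (hBA j ha)).hasFDerivWithinAt
  refine ⟨fun j => g '' B j, fun j => measurable_image_of_fderivWithin (hBm j) (hder j) (hBi j),
    fun ψ _ => ?_⟩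
  have e1 : ∫⁻ a in A, ψ (g a) * ENNReal.ofReal |(g' a).det| =
      ∫⁻ a in ⋃ j, B j, ψ (g a) * ENNReal.ofReal |(g' a).det| := by
    rw [hBU, ← lintegral_indicator hA, ← lintegral_indicator hA0]
    refine lintegral_congr fun a => ?_
    by_cases ha : a ∈ A
    · rw [indicator_of_mem ha]
      by_cases h0 : (g' a).det = 0
      · rw [indicator_of_notMem fun h => h.2 h0, h0]
        simp
      · rw [indicator_of_mem (show a ∈ A ∩ (fun a => (g' a).det) ⁻¹' {0}ᶜ from ⟨ha, h0⟩)]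
    · rw [indicator_of_notMem ha, indicator_of_notMem fun h => ha h.1]
  rw [e1, lintegral_iUnion hBm hBd]
  refine tsum_congr fun j => ?_
  rw [lintegral_image_eq_lintegral_abs_det_fderiv_mul volume (hBm j) (hder j) (hBi j)]
  exact lintegral_congr fun a => mul_comm _ _

theorem measurable_comp_W {α : Type*} [MeasurableSpace α] {p : α → H →L[ℝ] E m}
    {q : α → E m →L[ℝ] H} (hp : Measurable p) (hq : Measurable q) :
    Measurable fun a => (p a).comp (q a) := by
  have hc : Continuous fun z : (H →L[ℝ] E m) × (E m →L[ℝ] H) => z.1.comp z.2 :=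
    continuous_fst.clm_comp continuous_snd
  exact hc.measurable.comp (hp.prodMk hq)

theorem IsIntW.area (h : IsIntW m V) (O : Set H) (hO : IsOpen O) (Φ : H → E m)
    (hΦ : ContDiffOn ℝ 1 Φ O) (Z : Set (H × (H →L[ℝ] H))) (hZ : MeasurableSet Z)
    (hZO : Z ⊆ Prod.fst ⁻¹' O) :
    ∃ N : E m → ℝ≥0∞, Measurable N ∧ (∀ y, N y = ⊤ ∨ ∃ k : ℕ, N y = k) ∧
      ∀ f : E m → ℝ≥0∞, Measurable f →
        ∫⁻ z in Z, f (Φ z.1) * ENNReal.ofReal (jac (fderiv ℝ Φ z.1) z.2) ∂V = ∫⁻ y, f y * N y := by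
  classical
  obtain ⟨F, A, P, hF, hA, hP, hpl, hint⟩ := h
  have hFm : ∀ k, Measurable fun a => (F k a, P k a) := fun k =>
    (hF k).measurable.prodMk (hP k)
  have hA' : ∀ k, MeasurableSet (A k ∩ (fun a => (F k a, P k a)) ⁻¹' Z) := fun k =>
    (hA k).inter (hFm k hZ)
  have hder : ∀ k, ∀ a ∈ A k ∩ (fun a => (F k a, P k a)) ⁻¹' Z, HasFDerivAt (fun a => Φ (F k a))
      ((fderiv ℝ Φ (F k a)).comp (fderiv ℝ (F k) a)) a := fun k a ha =>
    ((hΦ.differentiableOn one_ne_zero).differentiableAt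
      (hO.mem_nhds (show F k a ∈ O from hZO ha.2))).hasFDerivAt.comp a
      (hpl k a ha.1).1.hasFDerivAt
  have hmeas : ∀ k, Measurable fun a => (fderiv ℝ Φ (F k a)).comp (fderiv ℝ (F k) a) := fun k =>
    measurable_comp_W ((measurable_fderiv ℝ Φ).comp (hF k).measurable) (measurable_fderiv ℝ (F k))
  choose S hSm hS using fun k => area_plane_W (hA' k) (hmeas k) (hder k)
  have hind : ∀ p : ℕ × ℕ, Measurable ((S p.1 p.2).indicator fun _ => (1 : ℝ≥0∞)) := fun p =>
    measurable_const.indicator (hSm p.1 p.2)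
  refine ⟨fun y => ∑' p : ℕ × ℕ, (S p.1 p.2).indicator (fun _ => (1 : ℝ≥0∞)) y,
    Measurable.tsum hind, fun y => count_tarea (fun p => S p.1 p.2) y, fun f hf => ?_⟩
  have hΦm : Measurable (O.piecewise Φ 0) :=
    hΦ.continuousOn.measurable_piecewise continuousOn_const hO.measurableSet
  have hG : Measurable fun z : H × (H →L[ℝ] H) =>
      f (O.piecewise Φ 0 z.1) * ENNReal.ofReal (jac (fderiv ℝ Φ z.1) z.2) :=
    (hf.comp (hΦm.comp measurable_fst)).mul (ENNReal.measurable_ofReal.comp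
      (continuous_jac.measurable.comp
        (((measurable_fderiv ℝ Φ).comp measurable_fst).prodMk measurable_snd)))
  have e1 : ∫⁻ z in Z, f (Φ z.1) * ENNReal.ofReal (jac (fderiv ℝ Φ z.1) z.2) ∂V =
      ∫⁻ z, Z.indicator (fun z : H × (H →L[ℝ] H) =>
        f (O.piecewise Φ 0 z.1) * ENNReal.ofReal (jac (fderiv ℝ Φ z.1) z.2)) z ∂V := by
    rw [lintegral_indicator hZ]
    refine setLIntegral_congr_fun hZ fun z hz => ?_
    show _ = f (O.piecewise Φ 0 z.1) * _
    rw [piecewise_eq_of_mem _ _ _ (show z.1 ∈ O from hZO hz)]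
  have e2 : ∀ k, ∫⁻ a in A k, Z.indicator (fun z : H × (H →L[ℝ] H) =>
        f (O.piecewise Φ 0 z.1) * ENNReal.ofReal (jac (fderiv ℝ Φ z.1) z.2)) (F k a, P k a) *
        ENNReal.ofReal (areaElt (fderiv ℝ (F k) a)) = ∑' j, ∫⁻ y in S k j, f y := by
    intro k
    rw [← hS k f hf, ← lintegral_indicator (hA k), ← lintegral_indicator (hA' k)]
    refine lintegral_congr fun a => ?_
    by_cases ha : a ∈ A k
    · rw [indicator_of_mem ha]
      by_cases hz : (F k a, P k a) ∈ Z
      · rw [indicator_of_mem hz, indicator_of_mem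
          (show a ∈ A k ∩ (fun a => (F k a, P k a)) ⁻¹' Z from ⟨ha, hz⟩),
          abs_det_comp (hpl k a ha).2.1 (hpl k a ha).2.2, mul_assoc,
          ENNReal.ofReal_mul (show 0 ≤ jac (fderiv ℝ Φ (F k a)) (P k a) from Real.sqrt_nonneg _)]
        show f (O.piecewise Φ 0 (F k a)) * _ = _
        rw [piecewise_eq_of_mem _ _ _ (show F k a ∈ O from hZO hz)]
      · rw [indicator_of_notMem hz, zero_mul, indicator_of_notMem fun h => hz h.2]
    · rw [indicator_of_notMem ha, indicator_of_notMem fun h => ha h.1]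
  rw [e1, hint _ (hG.indicator hZ), tsum_congr e2, ← ENNReal.tsum_prod]
  simp only [← ENNReal.tsum_mul_left]
  rw [lintegral_tsum fun p => (hf.fun_mul (hind p)).aemeasurable]
  refine tsum_congr fun p => ?_
  rw [← lintegral_indicator (hSm p.1 p.2)]
  refine lintegral_congr fun y => ?_
  by_cases hy : y ∈ S p.1 p.2
  · rw [indicator_of_mem hy, indicator_of_mem hy, mul_one]
  · rw [indicator_of_notMem hy, indicator_of_notMem hy, mul_zero]

end Pool.Agent.Lib.MP_8daebb_an.TB
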