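import Pool.Agent.Lib.MP_8daebb_an.TB.Def
import Pool.Agent.Lib.MP_8daebb_an.TB.HArea
import Pool.Agent.Lib.MP_8daebb_an.TB.Sard
import Pool.Agent.Lib.MP_8daebb_an.TB.Tan
import Pool.Agent.Lib.MP_8daebb_an.TB.W
import Pool.Agent.Lib.MP_8daebb_an.GM.TLD

/-! Decomposition of an integral varifold into charts. -/

set_option linter.unusedSectionVars false

open MeasureTheory Metric Filter Topology Set
open scoped RealInnerProductSpace ENNReal NNReal

namespace Pool.Agent.Lib.MP_8daebb_an.TB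

open SV (areaElt)
open GM

variable {H : Type*} [NormedAddCommGroup H] [InnerProductSpace ℝ H] [FiniteDimensional ℝ H]
  [MeasurableSpace H] [BorelSpace H] {m : ℕ}

theorem exists_charts {M : Set H} (h : CountablyRectifiable m M) :
    ∃ (g : ℕ → E m → H) (t : ℕ → Set (E m)), (∀ j, Continuous (g j)) ∧
      (∀ j, MeasurableSet (t j)) ∧ (∀ j, InjOn (g j) (t j)) ∧
      (∀ j, ∀ a ∈ t j, DifferentiableAt ℝ (g j) a ∧ Function.Injective (fderiv ℝ (g j) a)) ∧
      (∀ j, ∃ c > 0, ∀ a ∈ t j, c ≤ areaElt (fderiv ℝ (g j) a)) ∧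
      Pairwise (Function.onFun Disjoint fun j => g j '' t j) ∧
      μHE[m] (M \ ⋃ j, g j '' t j) = 0 := by
  obtain ⟨f, hf, h0⟩ := h
  choose K hK using hf
  set D : ℕ → Set (E m) := fun k =>
    {a | DifferentiableAt ℝ (f k) a ∧ Function.Injective (fderiv ℝ (f k) a)} with hD
  have hDm : ∀ k, MeasurableSet (D k) := fun k =>
    (measurableSet_of_differentiableAt ℝ (f k)).inter
      (measurable_fderiv ℝ (f k) ContinuousLinearMap.isOpen_injective.measurableSet)
  choose t A h1 h2 h3 h4 h5 using fun k => exists_part (hDm k) (measurable_fderiv ℝ (f k))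
    (fun x hx => hx.1.hasFDerivAt.hasFDerivWithinAt) (fun x hx => hx.2) (ε := 1 / 2) (by norm_num)
  have hinj : ∀ k n, InjOn (f k) (t k n) := by
    intro k n x hx y hy hxy
    have h6 := h4 k n x hx y hy
    rw [hxy, sub_self, zero_sub, norm_neg] at h6
    have h7 : A k n (x - y) = A k n 0 := by
      rw [map_zero, ← norm_le_zero_iff]
      linarith
    exact sub_eq_zero.1 ((h5 k n x hx).1 h7)
  have hsub : ∀ k n, t k n ⊆ D k := fun k n => h3 k ▸ subset_iUnion (t k) n
  let e : ℕ ≃ ℕ × ℕ := (Denumerable.eqv (ℕ × ℕ)).symm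
  set S : ℕ → Set H := fun j => f (e j).1 '' t (e j).1 (e j).2 with hS
  have hSm : ∀ j, MeasurableSet (S j) := fun j =>
    (h1 _ _).image_of_continuousOn_injOn (hK _).continuous.continuousOn (hinj _ _)
  have him : ∀ j, f (e j).1 '' (t (e j).1 (e j).2 ∩ f (e j).1 ⁻¹' disjointed S j) =
      disjointed S j := fun j => by
    rw [image_inter_preimage]
    exact inter_eq_right.2 (disjointed_subset S j)
  refine ⟨fun j => f (e j).1, fun j => t (e j).1 (e j).2 ∩ f (e j).1 ⁻¹' disjointed S j,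
    fun j => (hK _).continuous,
    fun j => (h1 _ _).inter ((hK _).continuous.measurable (MeasurableSet.disjointed hSm j)),
    fun j => (hinj _ _).mono inter_subset_left, fun j a ha => hsub _ _ ha.1, fun j => ?_, ?_, ?_⟩
  · by_cases hA : Function.Injective (A (e j).1 (e j).2)
    · have h6 := areaElt_pos hA
      refine ⟨areaElt (A (e j).1 (e j).2) / 2, by positivity, fun a ha => ?_⟩
      have h7 := (h5 _ _ a ha.1).2.2
      linarith
    · exact ⟨1, one_pos, fun a ha => absurd (h5 _ _ a ha.1).1 hA⟩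
  · simp only [him]
    exact disjoint_disjointed S
  · simp only [him]
    rw [iUnion_disjointed]
    refine measure_mono_null (t := (M \ ⋃ k, range (f k)) ∪ ⋃ k, f k '' (D k)ᶜ) (fun x hx => ?_)
      (measure_union_null h0 (measure_iUnion_null fun k => haus_bad (hK k)))
    by_cases hx' : x ∈ ⋃ k, range (f k)
    · obtain ⟨k, a, rfl⟩ := mem_iUnion.1 hx'
      refine Or.inr (mem_iUnion.2 ⟨k, a, fun ha => hx.2 ?_, rfl⟩)
      rw [← h3 k] at ha
      obtain ⟨n, hn⟩ := mem_iUnion.1 ha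
      refine mem_iUnion.2 ⟨e.symm (k, n), ?_⟩
      simp only [hS, e.apply_symm_apply]
      exact mem_image_of_mem _ hn
    · exact Or.inl ⟨hx.1, hx'⟩

theorem cast_eq_tsum_dec (n : ℕ) : (n : ℝ≥0∞) = ∑' i : ℕ, if i < n then 1 else 0 := by
  rw [tsum_eq_sum (s := Finset.range n) fun i hi => if_neg (by simpa using hi),
    Finset.sum_congr rfl fun i hi => if_pos (Finset.mem_range.1 hi)]
  simp

/-- the weight in terms of the charts -/
theorem weight_dec {M : Set H} (hM : MeasurableSet M) {θ : H → ℕ} (hθ : Measurable θ)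
    {g : ℕ → E m → H} {t : ℕ → Set (E m)} (h1 : ∀ j, Continuous (g j))
    (h2 : ∀ j, MeasurableSet (t j)) (h3 : ∀ j, InjOn (g j) (t j))
    (h4 : ∀ j, ∀ a ∈ t j, DifferentiableAt ℝ (g j) a ∧ Function.Injective (fderiv ℝ (g j) a))
    (h5 : Pairwise (Function.onFun Disjoint fun j => g j '' t j))
    (h6 : μHE[m] (M \ ⋃ j, g j '' t j) = 0) {ψ : H → ℝ≥0∞} (hψ : Measurable ψ) :
    ∫⁻ x, ψ x ∂((μHE[m].restrict M).withDensity fun x => (θ x : ℝ≥0∞)) =
      ∑' p : ℕ × ℕ, ∫⁻ a in t p.2 ∩ g p.2 ⁻¹' (M ∩ {x | p.1 < θ x}),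
        ψ (g p.2 a) * ENNReal.ofReal (areaElt (fderiv ℝ (g p.2) a)) := by
  have hN : ∀ i, MeasurableSet {x | i < θ x} := fun i => hθ (MeasurableSet.of_discrete (s := Ioi i))
  have hθ' : Measurable fun x => (θ x : ℝ≥0∞) := Measurable.of_discrete.comp hθ
  have hS : ∀ j, MeasurableSet (g j '' t j) := fun j =>
    (h2 j).image_of_continuousOn_injOn (h1 j).continuousOn (h3 j)
  have e1 : ∀ x, (θ x : ℝ≥0∞) * ψ x = ∑' i : ℕ, {x | i < θ x}.indicator ψ x := fun x => by
    rw [cast_eq_tsum_dec, ← ENNReal.tsum_mul_right]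
    refine tsum_congr fun i => ?_
    by_cases h : i < θ x
    · rw [if_pos h, one_mul, indicator_of_mem (show x ∈ {x | i < θ x} from h)]
    · rw [if_neg h, zero_mul, indicator_of_notMem (show x ∉ {x | i < θ x} from h)]
  rw [lintegral_withDensity_eq_lintegral_mul _ hθ' hψ, ENNReal.tsum_prod']
  simp only [Pi.mul_apply, e1]
  rw [lintegral_tsum fun i => (hψ.indicator (hN i)).aemeasurable]
  refine tsum_congr fun i => ?_
  have e2 : ({x | i < θ x} ∩ M : Set H) =ᵐ[μHE[m]]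
      (⋃ j, g j '' t j ∩ (M ∩ {x | i < θ x}) : Set H) := by
    rw [← iUnion_inter, inter_comm _ M, inter_comm (⋃ j, g j '' t j)]
    refine (ae_eq_set.2 ⟨measure_mono_null (fun x hx => ?_) h6, ?_⟩)
    · exact ⟨hx.1.1, fun h => hx.2 ⟨hx.1, h⟩⟩
    · rw [sdiff_eq_empty.2 inter_subset_left, measure_empty]
  rw [lintegral_indicator (hN i), Measure.restrict_restrict (hN i), setLIntegral_congr e2,
    lintegral_iUnion (fun j => (hS j).inter (hM.inter (hN i)))
      fun j j' hj => (h5 hj).mono inter_subset_left inter_subset_left]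
  refine tsum_congr fun j => ?_
  rw [← image_inter_preimage]
  exact haus_lintegral ((h2 j).inter ((h1 j).measurable (hM.inter (hN i)))) (h1 j).measurable
    (measurable_fderiv ℝ (g j)) (fun a ha => (h4 j a ha.1).1.hasFDerivAt.hasFDerivWithinAt)
    (fun a ha => (h4 j a ha.1).2) ((h3 j).mono inter_subset_left) hψ

variable {U : Set H} {V : Measure (H × (H →L[ℝ] H))}

theorem core_dec (hV : IsStationaryVarifold m U V) (hU : IsOpen U) {M : Set H}
    (hM : MeasurableSet M) {θ : H → ℕ} (hθ : Measurable θ) {T : H → H →L[ℝ] H}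
    (hT : Measurable T) (hR : CountablyRectifiable m M)
    (hVe : V = ((μHE[m].restrict M).withDensity fun x => (θ x : ℝ≥0∞)).map fun x => (x, T x))
    (hae : ∀ᵐ x ∂V.fst, IsPlane m (T x) ∧ ∃ ι : E m →ₗᵢ[ℝ] H,
      range (T x) = range ι ∧ HasFlatTangent m V.fst x (θ x) ι) :
    IsIntW m V ∧ ∀ᵐ w ∂V, LD1 m V w.1 := by
  have hθ' : Measurable fun x => (θ x : ℝ≥0∞) := Measurable.of_discrete.comp hθ
  have hN : ∀ i, MeasurableSet {x | i < θ x} := fun i => hθ (MeasurableSet.of_discrete (s := Ioi i))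
  have hm : Measurable fun x => (x, T x) := measurable_id.prodMk hT
  have hfst : V.fst = (μHE[m].restrict M).withDensity fun x => (θ x : ℝ≥0∞) := by
    rw [hVe, Measure.fst, Measure.map_map measurable_fst hm]
    exact Measure.map_id
  constructor
  swap
  · have h1 : ∀ᵐ x ∂V.fst, θ x ≠ 0 := by
      rw [hfst, ae_withDensity_iff hθ']
      exact .of_forall fun x hx h => hx (by rw [h, Nat.cast_zero])
    have h2 : ∀ᵐ x ∂V.fst, LD1 m V x := by
      filter_upwards [h1, hae] with x hx ⟨_, ι, _, hι⟩ δ hδ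
      exact ld_of_tangent (Nat.one_le_cast.2 (Nat.one_le_iff_ne_zero.2 hx)) hι hδ
    exact ae_of_ae_map measurable_fst.aemeasurable h2
  obtain ⟨g, t, h1, h2, h3, h4, hc, h5, h6⟩ := exists_charts hR
  choose c hc0 hc using hc
  set B : ℕ × ℕ → Set (E m) := fun p => t p.2 ∩ g p.2 ⁻¹' (M ∩ {x | p.1 < θ x}) with hB
  have hBm : ∀ p, MeasurableSet (B p) := fun p =>
    (h2 _).inter ((h1 _).measurable (hM.inter (hN _)))
  have hw : ∀ ψ : H → ℝ≥0∞, Measurable ψ → ∫⁻ x, ψ x ∂V.fst = ∑' p : ℕ × ℕ, ∫⁻ a in B p,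
      ψ (g p.2 a) * ENNReal.ofReal (areaElt (fderiv ℝ (g p.2) a)) := fun ψ hψ => by
    rw [hfst]
    exact weight_dec hM hθ h1 h2 h3 h4 h5 h6 hψ
  have hlow : ∀ p, ∀ S : Set H, MeasurableSet S →
      ENNReal.ofReal (c p.2) * volume (B p ∩ g p.2 ⁻¹' S) ≤ V.fst S := by
    intro p S hS
    have hS' : MeasurableSet (g p.2 ⁻¹' S) := (h1 _).measurable hS
    rw [← lintegral_indicator_one hS, hw _ (measurable_one.indicator hS)]
    refine le_trans ?_ (ENNReal.le_tsum p)
    rw [← setLIntegral_const]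
    refine le_trans ?_ (lintegral_mono_set (s := B p ∩ g p.2 ⁻¹' S) inter_subset_left)
    refine setLIntegral_mono' ((hBm p).inter hS') fun a ha => ?_
    rw [indicator_of_mem (show g p.2 a ∈ S from ha.2), Pi.one_apply, one_mul]
    exact ENNReal.ofReal_le_ofReal (hc _ a ha.1.1)
  have hc1 : ∀ j, ENNReal.ofReal (c j) ≠ 0 := fun j => (ENNReal.ofReal_pos.2 (hc0 j)).ne'
  have hU' : ∀ᵐ x ∂V.fst, x ∈ U :=
    (ae_map_iff measurable_fst.aemeasurable hU.measurableSet).2 (hV.carried.mono fun w hw => hw.1)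
  obtain ⟨N, hN1, hN2, hN3⟩ := exists_measurable_superset_of_null (ae_iff.1 (hU'.and hae))
  have hgood : ∀ p, ∀ᵐ a ∂volume.restrict (B p), IsPlane m (T (g p.2 a)) ∧
      range (T (g p.2 a)) = range (fderiv ℝ (g p.2) a) := by
    intro p
    have h7 : volume (B p ∩ g p.2 ⁻¹' N) = 0 :=
      (mul_eq_zero.1 (nonpos_iff_eq_zero.1 (hN3 ▸ hlow p N hN2))).resolve_left (hc1 _)
    have h8 : ∀ᵐ a ∂volume.restrict (B p), g p.2 a ∉ N := by
      rw [ae_restrict_iff' (hBm p)]
      filter_upwards [measure_eq_zero_iff_ae_notMem.1 h7] with a ha h h'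
      exact ha ⟨h, h'⟩
    filter_upwards [h8, ae_density_point (hBm p), ae_restrict_mem (hBm p)] with a ha hd hb
    obtain ⟨hx, hp, ι, hι, ht⟩ := not_not.1 fun h => ha (hN1 h)
    obtain ⟨r, hr, hrU⟩ := nhds_basis_closedBall.mem_iff.1 (hU.mem_nhds hx)
    exact ⟨hp, hι.trans (range_eq_of_tangent (hc1 _) (fun S hS => hlow p S hS.measurableSet)
      (h4 _ a hb.1).1 (h4 _ a hb.1).2 hd ⟨r, hr, hV.ball_lt_top hrU⟩ ht).symm⟩
  choose Z hZ1 hZ2 hZ3 using fun p => exists_measurable_superset_of_null (ae_iff.1 (hgood p))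
  let e : ℕ ≃ ℕ × ℕ := (Denumerable.eqv (ℕ × ℕ)).symm
  refine ⟨fun k => g (e k).2, fun k => B (e k) \ Z (e k), fun k a => T (g (e k).2 a),
    fun k => h1 _, fun k => (hBm _).diff (hZ2 _), fun k => hT.comp (h1 _).measurable,
    fun k a ha => ⟨(h4 _ a ha.1.1).1, not_not.1 fun h => ha.2 (hZ1 _ h)⟩, fun φ hφ => ?_⟩
  have hφ' : Measurable fun x => φ (x, T x) := hφ.comp hm
  have e1 : ∫⁻ w, φ w ∂V = ∫⁻ x, φ (x, T x) ∂V.fst := by
    rw [hfst, ← lintegral_map hφ hm, ← hVe]
  rw [e1, hw _ hφ', ← e.tsum_eq]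
  refine tsum_congr fun k => setLIntegral_congr (sdiff_ae_eq_self.2 ?_).symm
  rw [inter_comm, ← Measure.restrict_apply (hZ2 _)]
  exact hZ3 _

theorem isIntW_of (hV : IsStationaryVarifold m U V) (hU : IsOpen U)
    (h : IsIntegralVarifold m V) : IsIntW m V ∧ ∀ᵐ w ∂V, LD1 m V w.1 := by
  obtain ⟨M, θ, T, ⟨f, hf, h0⟩, hM, hθ, hT, hVe, hae⟩ := h
  obtain ⟨M', h1, h2, h3⟩ := hM.exists_measurable_subset_ae_eq
  obtain ⟨θ', hθm, hθe⟩ := id hθ
  obtain ⟨T', hTm, hTe⟩ := id hT
  have h4 : ∀ᵐ x ∂((μHE[m].restrict M).withDensity fun x => (θ x : ℝ≥0∞)),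
      θ x = θ' x ∧ T x = T' x :=
    (withDensity_absolutelyContinuous _ _).ae_le (hθe.and hTe)
  have h5 : V = ((μHE[m].restrict M').withDensity fun x => (θ' x : ℝ≥0∞)).map
      fun x => (x, T' x) := by
    rw [hVe, Measure.restrict_congr_set h3,
      Measure.map_congr (g := fun x => (x, T' x)) (h4.mono fun x hx => by simp only [hx.2]),
      withDensity_congr_ae (g := fun x => (θ' x : ℝ≥0∞))
        (hθe.mono fun x hx => by simp only [hx])]
  have h6 : V.fst = (μHE[m].restrict M).withDensity fun x => (θ x : ℝ≥0∞) := by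
    have h7 : AEMeasurable (fun x => (x, T x))
        ((μHE[m].restrict M).withDensity fun x => (θ x : ℝ≥0∞)) :=
      aemeasurable_id.prodMk (hT.mono_ac (withDensity_absolutelyContinuous _ _))
    rw [hVe, Measure.fst, AEMeasurable.map_map_of_aemeasurable measurable_fst.aemeasurable h7]
    exact Measure.map_id
  refine core_dec hV hU h2 hθm hTm
    ⟨f, hf, measure_mono_null (sdiff_subset_sdiff_left h1) h0⟩ h5 ?_
  rw [← h6] at h4
  filter_upwards [h4, hae] with x hx hy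
  rwa [← hx.1, ← hx.2]

end Pool.Agent.Lib.MP_8daebb_an.TB
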