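import Pool.Agent.Lib.MP_8daebb_an.Setting

/-! Integral (integer rectifiable) varifolds. -/

open MeasureTheory Set
open scoped NNReal ENNReal

namespace Pool.Agent.Lib.MP_8daebb_an

variable {E : Type*} [NormedAddCommGroup E] [InnerProductSpace ℝ E] [FiniteDimensional ℝ E]
  [MeasurableSpace E] [BorelSpace E]

/-- `M` is countably `m`-rectifiable: up to a null set of the `m`-dimensional Hausdorff measure
(normalised to be the Lebesgue measure on `m`-planes) it is covered by countably many Lipschitz images of `ℝ^m`. -/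
def CountablyRectifiable (m : ℕ) (M : Set E) : Prop :=
  ∃ f : ℕ → EuclideanSpace ℝ (Fin m) → E, (∀ k, ∃ K : ℝ≥0, LipschitzWith K (f k)) ∧
    Measure.euclideanHausdorffMeasure m (M \ ⋃ k, range (f k)) = 0

/-- `V` is the varifold `v(M, θ)` of a countably `m`-rectifiable `H^m`-measurable set `M` and a
measurable multiplicity `θ` with values in `ℕ`: the weight is `θ H^m` on `M`, and at almost every
point `x` the plane `T x` is the approximate tangent plane of `M` with respect to `θ`. -/
def IsIntegralVarifold (m : ℕ) (V : Measure (E × (E →L[ℝ] E))) : Prop :=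
  ∃ (M : Set E) (θ : E → ℕ) (T : E → E →L[ℝ] E),
    CountablyRectifiable m M ∧ NullMeasurableSet M (Measure.euclideanHausdorffMeasure m) ∧
    AEMeasurable θ ((Measure.euclideanHausdorffMeasure m).restrict M) ∧
    AEMeasurable T ((Measure.euclideanHausdorffMeasure m).restrict M) ∧
    V = (((Measure.euclideanHausdorffMeasure m).restrict M).withDensity
      fun x => (θ x : ℝ≥0∞)).map (fun x => (x, T x)) ∧
    ∀ᵐ x ∂V.fst, IsPlane m (T x) ∧ ∃ ι : EuclideanSpace ℝ (Fin m) →ₗᵢ[ℝ] E,
      range (T x) = range ι ∧ HasFlatTangent m V.fst x (θ x) ι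

end Pool.Agent.Lib.MP_8daebb_an
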