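import Pool.Agent.Lib.MP_8daebb_an.GM.TAlg

/-! Partition of a set on which a map is differentiable with injective derivative. -/

set_option linter.unusedSectionVars false

open MeasureTheory Metric Filter Topology Set
open scoped RealInnerProductSpace ENNReal NNReal

namespace Pool.Agent.Lib.MP_8daebb_an.TB

open SV (areaElt)
open GM

variable {H : Type*} [NormedAddCommGroup H] [InnerProductSpace ℝ H] [FiniteDimensional ℝ H]
  [MeasurableSpace H] [BorelSpace H] {m : ℕ}

theorem exists_part {f : E m → H} {f' : E m → E m →L[ℝ] H} {s : Set (E m)} (hs : MeasurableSet s)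
    (hm : Measurable f') (hf : ∀ x ∈ s, HasFDerivWithinAt f (f' x) s x)
    (hi : ∀ x ∈ s, Function.Injective (f' x)) {ε : ℝ} (hε : 0 < ε) :
    ∃ (t : ℕ → Set (E m)) (A : ℕ → E m →L[ℝ] H), (∀ n, MeasurableSet (t n)) ∧
      Pairwise (Function.onFun Disjoint t) ∧ ⋃ n, t n = s ∧
      (∀ n, ∀ x ∈ t n, ∀ y ∈ t n, ‖f x - f y - A n (x - y)‖ ≤ ε * ‖A n (x - y)‖) ∧
      ∀ n, ∀ x ∈ t n, Function.Injective (A n) ∧ areaElt (f' x) ≤ (1 + ε) * areaElt (A n) ∧
        areaElt (A n) ≤ (1 + ε) * areaElt (f' x) := by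
  have key : ∀ A : E m →L[ℝ] H, ∃ δ : ℝ≥0, δ ≠ 0 ∧
      (Function.Injective A → ∀ v, δ * ‖v‖ ≤ ε * ‖A v‖) := by
    intro A
    by_cases hA : Function.Injective A
    · obtain ⟨K, hK, h⟩ := (A : E m →ₗ[ℝ] H).exists_antilipschitzWith (LinearMap.ker_eq_bot.2 hA)
      have hK' : (0 : ℝ) < K := hK
      refine ⟨⟨ε / K, by positivity⟩, fun h0 => ?_, fun _ v => ?_⟩
      · have h1 : ε / K = 0 := congrArg NNReal.toReal h0
        exact (div_pos hε hK').ne' h1
      · have h1 : ‖v‖ ≤ K * ‖A v‖ := by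
          simpa using h.le_mul_dist v 0
        show ε / K * ‖v‖ ≤ _
        calc ε / K * ‖v‖ ≤ ε / K * (K * ‖A v‖) := by gcongr
          _ = _ := by field_simp
    · exact ⟨1, one_ne_zero, fun h => absurd h hA⟩
  choose δ hδ0 hδ using key
  have hL : 0 < Real.log (1 + ε) := Real.log_pos (by linarith)
  set k : (E m →L[ℝ] H) → ℤ := fun A => ⌊Real.log (areaElt A) / Real.log (1 + ε)⌋ with hk
  have hkm : Measurable k :=
    ((Real.measurable_log.comp continuous_areaElt.measurable).div_const _).floor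
  have hkk : ∀ A B : E m →L[ℝ] H, Function.Injective A → Function.Injective B → k A = k B →
      areaElt A ≤ (1 + ε) * areaElt B := by
    intro A B hA hB h
    have h1 := (abs_lt.1 (Int.abs_sub_lt_one_of_floor_eq_floor h)).2
    rw [← sub_div, div_lt_one hL, sub_lt_iff_lt_add,
      ← Real.log_mul (by linarith) (areaElt_pos hB).ne'] at h1
    exact ((Real.log_lt_log_iff (areaElt_pos hA)
      (mul_pos (by linarith) (areaElt_pos hB))).1 h1).le
  set S : ℤ → Set (E m) := fun j => s ∩ (fun x => k (f' x)) ⁻¹' {j} with hS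
  have hSm : ∀ j, MeasurableSet (S j) := fun j =>
    hs.inter ((hkm.comp hm) (measurableSet_singleton j))
  choose t A h1 h2 h3 h4 h5 using fun j =>
    exists_partition_approximatesLinearOn_of_hasFDerivWithinAt f (S j) f'
      (fun x hx => (hf x hx.1).mono inter_subset_left) δ hδ0
  let e : ℕ ≃ ℤ × ℕ := (Denumerable.eqv (ℤ × ℕ)).symm
  have h6 : ∀ j n, ∀ x ∈ S j, Function.Injective (A j n) ∧ k (A j n) = k (f' x) := by
    intro j n x hx
    obtain ⟨y, hy, h⟩ := h5 j ⟨x, hx⟩ n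
    rw [h]
    exact ⟨hi y hy.1, (show k (f' y) = j from hy.2).trans (show k (f' x) = j from hx.2).symm⟩
  refine ⟨fun n => S (e n).1 ∩ t (e n).1 (e n).2, fun n => A (e n).1 (e n).2,
    fun n => (hSm _).inter (h2 _ _), fun n n' hn => ?_, ?_, fun n x hx y hy => ?_,
    fun n x hx => ?_⟩
  · refine disjoint_left.2 fun x hx hx' => ?_
    have h7 : (e n).1 = (e n').1 :=
      (show k (f' x) = _ from hx.1.2).symm.trans (show k (f' x) = _ from hx'.1.2)
    have h8 : (e n).2 ≠ (e n').2 := fun h => hn (e.injective (Prod.ext h7 h))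
    have h9 := hx.2
    rw [h7] at h9
    exact disjoint_left.1 (h1 _ h8) h9 hx'.2
  · refine Subset.antisymm (iUnion_subset fun n x hx => hx.1.1) fun x hx => ?_
    have h7 : x ∈ S (k (f' x)) := ⟨hx, rfl⟩
    obtain ⟨n, hn⟩ := mem_iUnion.1 (h3 _ h7)
    refine mem_iUnion.2 ⟨e.symm (k (f' x), n), ?_⟩
    rw [e.apply_symm_apply]
    exact ⟨h7, hn⟩
  · exact (h4 _ _ x hx y hy).trans (hδ _ (h6 _ _ x hx.1).1 _)
  · obtain ⟨h7, h8⟩ := h6 (e n).1 (e n).2 x hx.1
    exact ⟨h7, hkk _ _ (hi x hx.1.1) h7 h8.symm, hkk _ _ h7 (hi x hx.1.1) h8⟩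

/-- comparison of Hausdorff measures of two images -/
theorem haus_le {X Y Z : Type*} [Nonempty X] [MetricSpace Y] [MeasurableSpace Y] [BorelSpace Y]
    [MetricSpace Z] [MeasurableSpace Z] [BorelSpace Z] {f : X → Y} {g : X → Z} {t : Set X}
    {K : ℝ} (hK : 0 ≤ K) (h : ∀ x ∈ t, ∀ y ∈ t, dist (f x) (f y) ≤ K * dist (g x) (g y)) :
    μHE[m] (f '' t) ≤ ENNReal.ofReal (K ^ m) * μHE[m] (g '' t) := by
  have h1 : ∀ x ∈ t, f (Function.invFunOn g t (g x)) = f x := by
    intro x hx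
    have h2 : ∃ a ∈ t, g a = g x := ⟨x, hx, rfl⟩
    have h3 := h _ (Function.invFunOn_mem h2) x hx
    rw [Function.invFunOn_eq h2, dist_self, mul_zero] at h3
    exact dist_le_zero.1 h3
  have h2 : LipschitzOnWith (NNReal.mk K hK) (fun z => f (Function.invFunOn g t z)) (g '' t) := by
    refine LipschitzOnWith.of_dist_le_mul ?_
    rintro _ ⟨x, hx, rfl⟩ _ ⟨y, hy, rfl⟩
    rw [h1 x hx, h1 y hy]
    exact h x hx y hy
  have h3 := h2.hausdorffMeasure_image_le (d := m) (Nat.cast_nonneg m)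
  rw [image_image, image_congr h1, ENNReal.rpow_natCast] at h3
  have h4 : ENNReal.ofReal (K ^ m) = (NNReal.mk K hK : ℝ≥0∞) ^ m := by
    rw [ENNReal.ofReal_pow hK, ENNReal.ofReal_eq_coe_nnreal hK]
  rw [Measure.euclideanHausdorffMeasure_def, Measure.euclideanHausdorffMeasure_def,
    Measure.smul_apply, Measure.smul_apply, Measure.nnreal_smul_coe_apply,
    Measure.nnreal_smul_coe_apply, h4, mul_left_comm]
  exact mul_le_mul_right h3 _

theorem haus_lin (A : E m →L[ℝ] H) (t : Set (E m)) :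
    μHE[m] (A '' t) = ENNReal.ofReal (areaElt A) * volume t := by
  have h1 := (A : E m →ₗ[ℝ] H).euclideanHausdorffMeasure_image_eq_normDet_mul_volume t
  have h2 := (A : E m →ₗ[ℝ] H).normDet_sq_eq_det_gram (EuclideanSpace.basisFun (Fin m) ℝ)
  have h3 : areaElt A = (A : E m →ₗ[ℝ] H).normDet := by
    rw [← Real.sqrt_sq (A : E m →ₗ[ℝ] H).normDet_nonneg, areaElt]
    refine congrArg _ (Eq.trans ?_ h2.symm)
    congr 1
    ext i k
    simp [Matrix.gram]
  rw [finrank_euclideanSpace_fin] at h1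
  rw [h3]
  exact h1

end Pool.Agent.Lib.MP_8daebb_an.TB
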